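import Pool.Agent.helper12.TZ.SpecI

/-! Row tz:IJN (MP_baa4d7_al): the number of the pairs of generators of a cyclic group. -/

set_option autoImplicit false

namespace Pool.Agent.TZ

open Pool.Agent.helper58.DC Pool.Agent.DI Pool.Agent.GR Pool.Agent.OB

/-- the number of the unimodular pairs -/
noncomputable def IJN_P (n : ℕ) : ℕ :=
  Nat.card {z : ZMod n × ZMod n // ∃ a b : ZMod n, a * z.1 + b * z.2 = 1}

theorem IJN_one : IJN_P 1 = 1 := by
  unfold IJN_P
  rw [Nat.card_eq_one_iff_unique]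
  exact ⟨⟨fun a b => Subtype.ext (Prod.ext (Subsingleton.elim _ _) (Subsingleton.elim _ _))⟩,
    ⟨⟨(0, 0), 0, 0, Subsingleton.elim _ _⟩⟩⟩

theorem IJN_mul {a b : ℕ} (h : Nat.Coprime a b) : IJN_P (a * b) = IJN_P a * IJN_P b := by
  unfold IJN_P
  rw [← Nat.card_prod]
  obtain ⟨e⟩ : Nonempty (ZMod (a * b) ≃+* ZMod a × ZMod b) := ⟨ZMod.chineseRemainder h⟩
  refine Nat.card_congr ?_
  refine Equiv.trans (Equiv.subtypeEquiv (q := fun w : (ZMod a × ZMod a) × (ZMod b × ZMod b) =>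
      (∃ u v : ZMod a, u * w.1.1 + v * w.1.2 = 1) ∧ ∃ u v : ZMod b, u * w.2.1 + v * w.2.2 = 1)
    ((Equiv.prodCongr e.toEquiv e.toEquiv).trans (Equiv.prodProdProdComm _ _ _ _)) ?_)
    (Equiv.subtypeProdEquivProd (p := fun z : ZMod a × ZMod a => ∃ u v : ZMod a, u * z.1 + v * z.2 = 1)
      (q := fun z : ZMod b × ZMod b => ∃ u v : ZMod b, u * z.1 + v * z.2 = 1))
  rintro ⟨x, y⟩
  change (∃ u v, u * x + v * y = 1) ↔
    (∃ u v, u * (e x).1 + v * (e y).1 = 1) ∧ ∃ u v, u * (e x).2 + v * (e y).2 = 1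
  constructor
  · rintro ⟨u, v, huv⟩
    have h1 := congrArg e huv
    rw [map_add, map_mul, map_mul, map_one] at h1
    exact ⟨⟨(e u).1, (e v).1, congrArg Prod.fst h1⟩, ⟨(e u).2, (e v).2, congrArg Prod.snd h1⟩⟩
  · rintro ⟨⟨u, v, huv⟩, ⟨u', v', huv'⟩⟩
    refine ⟨e.symm (u, u'), e.symm (v, v'), e.injective ?_⟩
    rw [map_add, map_mul, map_mul, map_one, e.apply_symm_apply, e.apply_symm_apply]
    exact Prod.ext huv huv'

theorem IJN_pow {l k : ℕ} (hl : l.Prime) (hk : 0 < k) :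
    IJN_P (l ^ k) = l ^ (2 * (k - 1)) * (l ^ 2 - 1) := by
  classical
  have hn0 : l ^ k ≠ 0 := pow_ne_zero _ hl.ne_zero
  have : NeZero (l ^ k) := ⟨hn0⟩
  have : Fact l.Prime := ⟨hl⟩
  -- units
  have hu : ∀ x : ZMod (l ^ k), IsUnit x ↔ ¬ l ∣ x.val := by
    intro x
    have h1 : x = ((x.val : ℕ) : ZMod (l ^ k)) := (ZMod.natCast_zmod_val x).symm
    rw [h1, ZMod.isUnit_iff_coprime, ZMod.natCast_zmod_val, Nat.coprime_pow_right_iff hk, Nat.coprime_comm,
      hl.coprime_iff_not_dvd]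
  have hiff : ∀ z : ZMod (l ^ k) × ZMod (l ^ k), (∃ a b : ZMod (l ^ k), a * z.1 + b * z.2 = 1) ↔
      ¬ (¬ IsUnit z.1 ∧ ¬ IsUnit z.2) := by
    rintro ⟨x, y⟩
    constructor
    · rintro ⟨a, b, hab⟩ ⟨hx, hy⟩
      change a * x + b * y = 1 at hab
      rw [hu, not_not] at hx hy
      let φ : ZMod (l ^ k) →+* ZMod l := ZMod.castHom (dvd_pow_self l hk.ne') (ZMod l)
      have h0 : ∀ x : ZMod (l ^ k), l ∣ x.val → φ x = 0 := by
        intro x hx
        have h1 : x = ((x.val : ℕ) : ZMod (l ^ k)) := (ZMod.natCast_zmod_val x).symm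
        rw [h1, map_natCast]
        exact (ZMod.natCast_eq_zero_iff _ _).2 hx
      have h1 := congrArg φ hab
      rw [map_add, map_mul, map_mul, map_one, h0 x hx, h0 y hy, mul_zero, mul_zero, add_zero] at h1
      exact zero_ne_one h1
    · intro h
      by_cases hx : IsUnit x
      · obtain ⟨w, rfl⟩ := hx
        exact ⟨((w⁻¹ : (ZMod (l ^ k))ˣ) : ZMod (l ^ k)), 0, by simp⟩
      · have hy : IsUnit y := by
          by_contra hy
          exact h ⟨hx, hy⟩
        obtain ⟨w, rfl⟩ := hy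
        exact ⟨0, ((w⁻¹ : (ZMod (l ^ k))ˣ) : ZMod (l ^ k)), by simp⟩
  -- the number of the non units
  have hcu : (Finset.univ.filter fun x : ZMod (l ^ k) => IsUnit x).card = l ^ (k - 1) * (l - 1) := by
    rw [← Nat.totient_prime_pow hl hk, ← ZMod.card_units_eq_totient (l ^ k), ← Finset.card_univ,
      ← Finset.card_map ⟨Units.val, Units.val_injective⟩]
    congr 1
    ext x
    simp only [Finset.mem_filter, Finset.mem_univ, true_and, Finset.mem_map, Function.Embedding.coeFn_mk]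
    exact Iff.rfl
  have hcn : (Finset.univ.filter fun x : ZMod (l ^ k) => ¬ IsUnit x).card = l ^ (k - 1) := by
    have h1 := Finset.card_filter_add_card_filter_not (s := (Finset.univ : Finset (ZMod (l ^ k))))
      (fun x : ZMod (l ^ k) => IsUnit x)
    rw [hcu, Finset.card_univ, ZMod.card] at h1
    obtain ⟨j, rfl⟩ : ∃ j, k = j + 1 := ⟨k - 1, by omega⟩
    obtain ⟨m, rfl⟩ : ∃ m, l = m + 1 := ⟨l - 1, by have := hl.pos; omega⟩
    simp only [Nat.add_sub_cancel] at h1 ⊢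
    have h2 : (m + 1) ^ (j + 1) = (m + 1) ^ j * m + (m + 1) ^ j := by ring
    omega
  unfold IJN_P
  rw [Nat.card_congr (Equiv.subtypeEquivRight hiff), Nat.card_eq_fintype_card, Fintype.card_subtype]
  have h1 := Finset.card_filter_add_card_filter_not (s := (Finset.univ : Finset (ZMod (l ^ k) × ZMod (l ^ k))))
    (fun z => ¬ IsUnit z.1 ∧ ¬ IsUnit z.2)
  have h2 : (Finset.univ.filter fun z : ZMod (l ^ k) × ZMod (l ^ k) => ¬ IsUnit z.1 ∧ ¬ IsUnit z.2) =
      (Finset.univ.filter fun x : ZMod (l ^ k) => ¬ IsUnit x) ×ˢ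
        (Finset.univ.filter fun x : ZMod (l ^ k) => ¬ IsUnit x) := by
    ext z
    simp
  rw [h2, Finset.card_product, hcn, Finset.card_univ, Fintype.card_prod, ZMod.card] at h1
  obtain ⟨j, rfl⟩ : ∃ j, k = j + 1 := ⟨k - 1, by omega⟩
  simp only [Nat.add_sub_cancel] at h1 ⊢
  have h3 : l ^ (j + 1) * l ^ (j + 1) = l ^ (2 * j) * l ^ 2 := by ring
  have h4 : l ^ j * l ^ j = l ^ (2 * j) := by ring
  have h5 : l ^ (2 * j) * (l ^ 2 - 1) = l ^ (2 * j) * l ^ 2 - l ^ (2 * j) := by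
    rw [Nat.mul_sub, mul_one]
  rw [h3, h4] at h1
  omega

theorem IJN_num {p : ℕ} (hp : p.Prime) : ∀ n : ℕ, n ≠ 0 →
    (∀ l : ℕ, l.Prime → l ∣ n → ¬ p ∣ l ∧ ¬ p ∣ l ^ 2 - 1) → ¬ p ∣ IJN_P n := by
  intro n
  induction n using Nat.recOnPosPrimePosCoprime with
  | prime_pow l k hl hk =>
    intro _ h hd
    obtain ⟨h1, h2⟩ := h l hl (dvd_pow_self l hk.ne')
    rw [IJN_pow hl hk] at hd
    rcases hp.dvd_mul.1 hd with h3 | h3
    · exact h1 (hp.dvd_of_dvd_pow h3)
    · exact h2 h3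
  | zero => intro h; exact absurd rfl h
  | one =>
    intro _ _ hd
    rw [IJN_one] at hd
    exact hp.one_lt.ne' (Nat.dvd_one.1 hd)
  | coprime a b ha hb hab iha ihb =>
    intro _ h hd
    rw [IJN_mul hab] at hd
    rcases hp.dvd_mul.1 hd with h3 | h3
    · exact iha (by omega) (fun l hl hla => h l hl (hla.mul_right b)) h3
    · exact ihb (by omega) (fun l hl hlb => h l hl (hlb.mul_left a)) h3

theorem IJN_card (A : Type) [Group A] [Finite A] (hA : IsCyclic A) :
    Nat.card {x : A × A // Subgroup.closure {x.1, x.2} = (⊤ : Subgroup A)} = IJN_P (Nat.card A) := by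
  unfold IJN_P
  have hn : NeZero (Nat.card A) := ⟨Nat.card_pos.ne'⟩
  obtain ⟨e⟩ : Nonempty (Multiplicative (ZMod (Nat.card A)) ≃* A) := ⟨zmodCyclicMulEquiv hA⟩
  refine (Nat.card_congr (Equiv.subtypeEquiv
    (Equiv.prodCongr (Multiplicative.ofAdd.trans e.toEquiv) (Multiplicative.ofAdd.trans e.toEquiv)) ?_)).symm
  rintro ⟨x, y⟩
  change (∃ a b, a * x + b * y = 1) ↔
    Subgroup.closure {e (Multiplicative.ofAdd x), e (Multiplicative.ofAdd y)} = (⊤ : Subgroup A)
  have h1 : Subgroup.closure {e (Multiplicative.ofAdd x), e (Multiplicative.ofAdd y)} =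
      (Subgroup.closure {Multiplicative.ofAdd x, Multiplicative.ofAdd y}).map e.toMonoidHom := by
    rw [MonoidHom.map_closure, Set.image_pair]
    rfl
  rw [h1]
  have h2 : ∀ z : ZMod (Nat.card A), Multiplicative.ofAdd z ∈
      Subgroup.closure {Multiplicative.ofAdd x, Multiplicative.ofAdd y} ↔ ∃ a b : ZMod (Nat.card A), a * x + b * y = z := by
    intro z
    rw [Subgroup.mem_closure_pair]
    constructor
    · rintro ⟨m, k, hmk⟩
      refine ⟨(m : ZMod (Nat.card A)), (k : ZMod (Nat.card A)), ?_⟩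
      have h3 := congrArg Multiplicative.toAdd hmk
      rw [toAdd_mul, toAdd_zpow, toAdd_zpow, toAdd_ofAdd, toAdd_ofAdd, toAdd_ofAdd, zsmul_eq_mul, zsmul_eq_mul] at h3
      exact h3
    · rintro ⟨a, b, hab⟩
      refine ⟨(a.val : ℤ), (b.val : ℤ), ?_⟩
      rw [← ofAdd_zsmul, ← ofAdd_zsmul, ← ofAdd_add, zsmul_eq_mul, zsmul_eq_mul, Int.cast_natCast, Int.cast_natCast,
        ZMod.natCast_zmod_val, ZMod.natCast_zmod_val, hab]
  constructor
  · rintro ⟨a, b, hab⟩
    have h3 : Subgroup.closure {Multiplicative.ofAdd x, Multiplicative.ofAdd y} = ⊤ := by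
      rw [eq_top_iff]
      intro z _
      obtain ⟨z, rfl⟩ := Multiplicative.ofAdd.surjective z
      rw [h2]
      exact ⟨z * a, z * b, by linear_combination z * hab⟩
    rw [h3]
    exact Subgroup.map_top_of_surjective e.toMonoidHom e.surjective
  · intro h3
    rw [← h2]
    have h4 : e (Multiplicative.ofAdd 1) ∈
        (Subgroup.closure {Multiplicative.ofAdd x, Multiplicative.ofAdd y}).map e.toMonoidHom := by
      rw [h3]
      exact Subgroup.mem_top _
    obtain ⟨w, hw, hwe⟩ := Subgroup.mem_map.1 h4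
    have h5 : w = Multiplicative.ofAdd 1 := e.injective hwe
    rw [← h5]
    exact hw

theorem IJN : IJN_stmt := by
  intro p hp A _ _ hA hl
  rw [IJN_card A hA]
  exact IJN_num hp.out (Nat.card A) Nat.card_pos.ne' hl

end Pool.Agent.TZ
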