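import Pool.Agent.helper12.TZ.Spec

/-! Row tz:ADP (MP_baa4d7_al): the transfer of `σ`. -/

set_option autoImplicit false

namespace Pool.Agent.TZ

open Pool.Agent.helper58.DC Pool.Agent.DI Pool.Agent.GR Pool.Agent.OB

section

variable {D X : Type} [Group D]

theorem ADP_cp {act : D →* Equiv.Perm X} {σ : Equiv.Perm X} (hc : ∀ d, σ * act d = act d * σ) (i : ℕ) (d : D)
    (x : X) : (σ ^ i) (act d x) = act d ((σ ^ i) x) := by
  have h1 : Commute σ (act d) := hc d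
  exact Equiv.congr_fun (h1.pow_left i).eq x

theorem ADP_aa (act : D →* Equiv.Perm X) (d e : D) (x : X) : act d (act e x) = act (d * e) x := by
  rw [map_mul]
  rfl

theorem ADP_inj {act : D →* Equiv.Perm X} (hf : ∀ d x, act d x = x → d = 1) {d e : D} {x : X}
    (h : act d x = act e x) : d = e := by
  have h1 : act (e⁻¹ * d) x = x := by
    rw [← ADP_aa, h, ADP_aa, inv_mul_cancel, map_one]
    rfl
  have h2 := hf _ _ h1
  exact (inv_mul_eq_one.1 h2).symm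

theorem ADP_ss (σ : Equiv.Perm X) (i j : ℕ) (x : X) : (σ ^ i) ((σ ^ j) x) = (σ ^ (i + j)) x := by
  rw [pow_add]
  rfl

/-- the minimal period modulo the action -/
theorem ADP_q {act : D →* Equiv.Perm X} {σ : Equiv.Perm X} (hc : ∀ d, σ * act d = act d * σ)
    {N : ℕ} (hN : 0 < N) (hσ : σ ^ N = 1) :
    ∃ (q : X → ℕ) (κ : X → D), (∀ x, 0 < q x) ∧ (∀ x, (σ ^ q x) x = act (κ x) x) ∧
      (∀ x i, 0 < i → i < q x → ∀ e, (σ ^ i) x ≠ act e x) ∧
      ∀ x i e, (σ ^ i) x = act e x → q x ∣ i := by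
  classical
  have hex : ∀ x, ∃ i, 0 < i ∧ ∃ e, (σ ^ i) x = act e x := fun x => ⟨N, hN, 1, by
    rw [hσ, map_one]⟩
  have h1 : ∀ x, ∃ (q : ℕ) (κ : D), 0 < q ∧ (σ ^ q) x = act κ x ∧
      ∀ i, 0 < i → i < q → ∀ e, (σ ^ i) x ≠ act e x := by
    intro x
    obtain ⟨h2, κ, hκ⟩ := Nat.find_spec (hex x)
    refine ⟨Nat.find (hex x), κ, h2, hκ, fun i hi hlt e he => ?_⟩
    exact Nat.find_min (hex x) hlt ⟨hi, e, he⟩
  choose q κ h1 h2 h3 using h1
  refine ⟨q, κ, h1, h2, h3, fun x i e he => ?_⟩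
  -- multiples of `q x`
  have hmul : ∀ n, ∃ d, (σ ^ (q x * n)) x = act d x := by
    intro n
    induction n with
    | zero => exact ⟨1, by simp⟩
    | succ n ih =>
      obtain ⟨d, hd⟩ := ih
      exact ⟨κ x * d, by rw [Nat.mul_succ, ← ADP_ss, h2, ADP_cp hc, hd, ADP_aa]⟩
  obtain ⟨d, hd⟩ := hmul (i / q x)
  by_contra hnd
  have h4 : 0 < i % q x := Nat.pos_of_ne_zero fun h0 => hnd (Nat.dvd_of_mod_eq_zero h0)
  refine h3 x (i % q x) h4 (Nat.mod_lt _ (h1 x)) (d⁻¹ * e) ?_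
  have h5 : (σ ^ (i % q x)) ((σ ^ (q x * (i / q x))) x) = act e x := by
    rw [ADP_ss, Nat.mod_add_div, he]
  rw [hd, ADP_cp hc] at h5
  rw [← ADP_aa, ← h5, ADP_aa, inv_mul_cancel, map_one]
  rfl

/-- the representatives: every `x` is `act d (σ ^ i x₀)`, for one `x₀ ∈ R`, one `d` and one `i < q x₀` -/
theorem ADP_rep {act : D →* Equiv.Perm X} {σ : Equiv.Perm X} (hf : ∀ d x, act d x = x → d = 1)
    (hc : ∀ d, σ * act d = act d * σ) {N : ℕ} (hN : 0 < N) (hσ : σ ^ N = 1)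
    {q : X → ℕ} {κ : X → D} (hq0 : ∀ x, 0 < q x) (hκ : ∀ x, (σ ^ q x) x = act (κ x) x)
    (hmin : ∀ x i, 0 < i → i < q x → ∀ e, (σ ^ i) x ≠ act e x) :
    ∃ R : Set X, Function.Bijective (fun z : (Σ x₀ : R, D × Fin (q x₀)) =>
      act z.2.1 ((σ ^ (z.2.2 : ℕ)) (z.1 : X))) := by
  classical
  let s : Setoid X :=
    { r := fun x y => ∃ (d : D) (i : ℕ), y = act d ((σ ^ i) x)
      iseqv :=
        { refl := fun x => ⟨1, 0, by simp⟩
          symm := by
            rintro x y ⟨d, i, rfl⟩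
            refine ⟨d⁻¹, N * i - i, ?_⟩
            have h1 : i ≤ N * i := Nat.le_mul_of_pos_left i hN
            rw [ADP_cp hc, ADP_aa, inv_mul_cancel, map_one, ADP_ss, Nat.sub_add_cancel h1, pow_mul, hσ, one_pow]
            rfl
          trans := by
            rintro x y z ⟨d, i, rfl⟩ ⟨d', j, rfl⟩
            exact ⟨d' * d, j + i, by rw [ADP_cp hc, ADP_aa, ADP_ss]⟩ } }
  obtain ⟨rep, hrep⟩ : ∃ rep : X → X, ∀ x, rep x = (Quotient.mk s x).out := ⟨_, fun x => rfl⟩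
  have hrep1 : ∀ x, ∃ (d : D) (i : ℕ), x = act d ((σ ^ i) (rep x)) := by
    intro x
    have h1 : s.r (rep x) x := by
      rw [hrep]
      exact Quotient.exact (Quotient.out_eq (Quotient.mk s x))
    exact h1
  have hrep2 : ∀ x y (d : D) (i : ℕ), y = act d ((σ ^ i) x) → rep y = rep x := by
    intro x y d i h
    rw [hrep, hrep]
    have h1 : Quotient.mk s y = Quotient.mk s x := (Quotient.sound (show s.r x y from ⟨d, i, h⟩)).symm
    rw [h1]
  have hrep3 : ∀ x, rep (rep x) = rep x := by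
    intro x
    obtain ⟨d, i, h⟩ := hrep1 x
    exact (hrep2 _ _ d i h).symm
  refine ⟨{x | rep x = x}, ?_, ?_⟩
  · rintro ⟨⟨x₀, hx₀⟩, d, ⟨i, hi⟩⟩ ⟨⟨x₁, hx₁⟩, d', ⟨j, hj⟩⟩ h
    change act d ((σ ^ i) x₀) = act d' ((σ ^ j) x₁) at h
    change rep x₀ = x₀ at hx₀
    change rep x₁ = x₁ at hx₁
    have h1 : x₀ = x₁ := by
      rw [← hx₀, ← hx₁, ← hrep2 x₀ _ d i rfl, h, hrep2 x₁ _ d' j rfl]
    subst h1
    change i < q x₀ at hi
    change j < q x₀ at hj
    have key : ∀ (a b : ℕ) (e e' : D), a ≤ b → b < q x₀ → act e ((σ ^ a) x₀) = act e' ((σ ^ b) x₀) → a = b := by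
      intro a b e e' hab hb he
      by_contra hne
      refine hmin x₀ (b - a) (by omega) (by omega) (e'⁻¹ * e) ?_
      have h2 : (σ ^ a) (act e x₀) = (σ ^ a) (act e' ((σ ^ (b - a)) x₀)) := by
        rw [ADP_cp hc, he, ADP_cp hc, ADP_ss, Nat.add_sub_cancel' hab]
      have h3 := (σ ^ a).injective h2
      rw [← ADP_aa, h3, ADP_aa, inv_mul_cancel, map_one]
      rfl
    have h2 : i = j := by
      rcases le_total i j with hij | hij
      · exact key i j d d' hij hj h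
      · exact (key j i d' d hij hi h.symm).symm
    subst h2
    have h3 : d = d' := ADP_inj hf h
    subst h3
    rfl
  · intro x
    obtain ⟨d, i, h⟩ := hrep1 x
    have hmul : ∀ n, ∃ e, (σ ^ (q (rep x) * n)) (rep x) = act e (rep x) := by
      intro n
      induction n with
      | zero => exact ⟨1, by simp⟩
      | succ n ih =>
        obtain ⟨e, he⟩ := ih
        exact ⟨κ (rep x) * e, by rw [Nat.mul_succ, ← ADP_ss, hκ, ADP_cp hc, he, ADP_aa]⟩
    obtain ⟨e, he⟩ := hmul (i / q (rep x))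
    refine ⟨⟨⟨rep x, hrep3 x⟩, d * e, ⟨i % q (rep x), Nat.mod_lt _ (hq0 _)⟩⟩, ?_⟩
    change act (d * e) ((σ ^ (i % q (rep x))) (rep x)) = x
    rw [← ADP_aa, ← ADP_cp hc, ← he, ADP_ss, Nat.mod_add_div]
    exact h.symm

theorem ADP_inv {act : D →* Equiv.Perm X} {σ : Equiv.Perm X} (hf : ∀ d x, act d x = x → d = 1)
    (hc : ∀ d, σ * act d = act d * σ) {q : X → ℕ} {κ : X → D}
    (hκ : ∀ x, (σ ^ q x) x = act (κ x) x) (hdvd : ∀ x i e, (σ ^ i) x = act e x → q x ∣ i) (d : D) (i : ℕ)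
    (x : X) : q (act d ((σ ^ i) x)) = q x ∧ κ (act d ((σ ^ i) x)) = d * κ x * d⁻¹ := by
  have h1 : ∀ x, q (act d x) = q x := by
    intro x
    refine Nat.dvd_antisymm ?_ ?_
    · refine hdvd (act d x) (q x) (d * κ x * d⁻¹) ?_
      rw [ADP_cp hc, hκ, ADP_aa, ADP_aa, inv_mul_cancel_right]
    · refine hdvd x (q (act d x)) (d⁻¹ * κ (act d x) * d) ?_
      have h2 := hκ (act d x)
      rw [ADP_cp hc, ADP_aa] at h2
      rw [mul_assoc, ← ADP_aa, ← h2, ADP_aa, inv_mul_cancel, map_one]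
      rfl
  have h2 : ∀ x, q ((σ ^ i) x) = q x := by
    intro x
    refine Nat.dvd_antisymm ?_ ?_
    · refine hdvd ((σ ^ i) x) (q x) (κ x) ?_
      rw [ADP_ss, add_comm, ← ADP_ss, hκ, ADP_cp hc]
    · refine hdvd x (q ((σ ^ i) x)) (κ ((σ ^ i) x)) ?_
      have h2 := hκ ((σ ^ i) x)
      rw [ADP_ss, add_comm, ← ADP_ss, ← ADP_cp hc] at h2
      exact (σ ^ i).injective h2
  have h3 : q (act d ((σ ^ i) x)) = q x := by rw [h1, h2]
  refine ⟨h3, ?_⟩
  have h4 := hκ (act d ((σ ^ i) x))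
  rw [h3, ADP_cp hc, ADP_ss, add_comm, ← ADP_ss, hκ, ADP_cp hc, ADP_aa, ADP_aa] at h4
  have h5 := ADP_inj hf h4
  rw [h5, mul_inv_cancel_right]

theorem ADP_mem {n p : ℕ} (hp : 0 < p) {act : D →* Equiv.Perm X} {σ : Equiv.Perm X}
    {f : D →* Multiplicative (ZMod n)} (hf : ∀ d x, act d x = x → d = 1)
    {q : X → ℕ} {κ : X → D} (hq0 : ∀ x, 0 < q x) (hκ : ∀ x, (σ ^ q x) x = act (κ x) x)
    (hmin : ∀ x i, 0 < i → i < q x → ∀ e, (σ ^ i) x ≠ act e x)
    (hdvd : ∀ x i e, (σ ^ i) x = act e x → q x ∣ i) (a : ℕ) (u : ZMod n) (x : X) :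
    x ∈ Xq p act f σ a u ↔ q x = p ^ a ∧ f (κ x) = Multiplicative.ofAdd u := by
  constructor
  · rintro ⟨h1, e, he, hfe⟩
    have h2 : q x = p ^ a := by
      have h3 : q x ≤ p ^ a := Nat.le_of_dvd (pow_pos hp a) (hdvd x _ e he)
      rcases h3.lt_or_eq with h4 | h4
      · exact absurd (hκ x) (h1 (q x) (hq0 x) h4 (κ x))
      · exact h4
    refine ⟨h2, ?_⟩
    have h3 : κ x = e := by
      refine ADP_inj hf (x := x) ?_
      rw [← hκ, h2, he]
    rw [h3, hfe]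
  · rintro ⟨h1, h2⟩
    refine ⟨fun i hi hi' => hmin x i hi (by rw [h1]; exact hi'), κ x, ?_, h2⟩
    rw [← h1]
    exact hκ x

end

theorem ADP_nat {n : ℕ} [NeZero n] (u : ZMod n) : ∃ k : ℕ, addOrderOf u * u.val = n * k := by
  have h1 : ((addOrderOf u * u.val : ℕ) : ZMod n) = 0 := by
    rw [Nat.cast_mul, ZMod.natCast_zmod_val, ← nsmul_eq_mul, addOrderOf_nsmul_eq_zero]
  exact (ZMod.natCast_eq_zero_iff _ _).1 h1

theorem ADP : ADP_stmt := by
  intro p c A M hS D X _ _ _ act w f σ hfree hwI hwa hws hc hσ hyp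
  classical
  have hp := hS.pr
  haveI : NeZero (p ^ c) := ⟨pow_ne_zero _ hp.ne_zero⟩
  haveI : Fintype D := Fintype.ofFinite D
  haveI : Fintype X := Fintype.ofFinite X
  obtain ⟨q, κ, hq0, hκ, hmin, hdvd⟩ := ADP_q hc (pow_pos hp.pos A) hσ
  obtain ⟨R, hbij⟩ := ADP_rep hfree hc (pow_pos hp.pos A) hσ hq0 hκ hmin
  haveI : Fintype R := Fintype.ofFinite R
  obtain ⟨e, he⟩ : ∃ e : (Σ x₀ : R, D × Fin (q x₀)) ≃ X,
      ∀ x₀ d i, e ⟨x₀, d, i⟩ = act d ((σ ^ (i : ℕ)) (x₀ : X)) := ⟨Equiv.ofBijective _ hbij, fun _ _ _ => rfl⟩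
  obtain ⟨k, hk⟩ : ∃ k : X → D, ∀ x, k x = (e.symm x).2.1 := ⟨_, fun _ => rfl⟩
  have hk1 : ∀ (x₀ : R) (d : D) (i : ℕ), i < q x₀ → k (act d ((σ ^ i) (x₀ : X))) = d := by
    intro x₀ d i hi
    have h1 : e ⟨x₀, d, ⟨i, hi⟩⟩ = act d ((σ ^ i) (x₀ : X)) := he x₀ d ⟨i, hi⟩
    rw [hk, ← h1, Equiv.symm_apply_apply]
  have hws' : ∀ i x, w ((σ ^ i) x) = w x := by
    intro i x
    induction i with
    | zero => rfl
    | succ i ih => rw [pow_succ', Equiv.Perm.mul_apply, hws, ih]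
  have hwe : ∀ (x₀ : R) (d : D) (i : ℕ), w (act d ((σ ^ i) (x₀ : X))) = w x₀ := fun x₀ d i => by
    rw [hwa, hws']
  have hsum : ∀ F : X → ℂ, ∑ x, F x = ∑ x₀ : R, ∑ d : D, ∑ i : Fin (q x₀), F (act d ((σ ^ (i : ℕ)) (x₀ : X))) := by
    intro F
    rw [← Equiv.sum_comp e, Fintype.sum_sigma]
    refine Finset.sum_congr rfl fun x₀ _ => ?_
    rw [Fintype.sum_prod_type]
    refine Finset.sum_congr rfl fun d _ => Finset.sum_congr rfl fun i _ => ?_
    rw [he]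
  have hfin : ∀ (S : Set X) (F : X → ℂ), ∑ᶠ x ∈ S, F x = ∑ x, if x ∈ S then F x else 0 := by
    intro S F
    rw [finsum_mem_def, finsum_eq_sum_of_fintype]
    refine Finset.sum_congr rfl fun x _ => ?_
    rw [Set.indicator_apply]
  refine ⟨k, ?_, ?_⟩
  · intro d x
    obtain ⟨⟨x₀, d', i⟩, rfl⟩ := e.surjective x
    rw [he, ADP_aa, hk1 x₀ _ _ i.2, hk1 x₀ _ _ i.2]
  -- the sums over the classes
  have hX : ∀ (a : ℕ) (u : ZMod (p ^ c)), ∃ v, IntAt M v ∧
      ∑ x₀ : R, (if q x₀ = p ^ a ∧ f (κ x₀) = Multiplicative.ofAdd u then w x₀ else 0) =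
        (addOrderOf u : ℂ) * v := by
    intro a u
    obtain ⟨v, hv, h1⟩ := hyp a u
    refine ⟨v, hv, ?_⟩
    rw [hfin, hsum] at h1
    have h2 : ∀ x₀ : R, ∑ d : D, ∑ i : Fin (q x₀), (if act d ((σ ^ (i : ℕ)) (x₀ : X)) ∈ Xq p act f σ a u then
        w (act d ((σ ^ (i : ℕ)) (x₀ : X))) else 0) = ((Nat.card D * p ^ a : ℕ) : ℂ) *
          (if q x₀ = p ^ a ∧ f (κ x₀) = Multiplicative.ofAdd u then w x₀ else 0) := by
      intro x₀
      have h3 : ∀ (d : D) (i : ℕ), (act d ((σ ^ i) (x₀ : X)) ∈ Xq p act f σ a u ↔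
          q x₀ = p ^ a ∧ f (κ x₀) = Multiplicative.ofAdd u) := by
        intro d i
        rw [ADP_mem hp.pos hfree hq0 hκ hmin hdvd]
        obtain ⟨h4, h5⟩ := ADP_inv hfree hc hκ hdvd d i (x₀ : X)
        rw [h4, h5, map_mul, map_mul, map_inv, mul_comm (f d), mul_inv_cancel_right]
      have h4 : ∀ (d : D) (i : Fin (q x₀)), (if act d ((σ ^ (i : ℕ)) (x₀ : X)) ∈ Xq p act f σ a u then
          w (act d ((σ ^ (i : ℕ)) (x₀ : X))) else 0) =
          (if q x₀ = p ^ a ∧ f (κ x₀) = Multiplicative.ofAdd u then w x₀ else 0) := by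
        intro d i
        rw [hwe]
        exact if_congr (h3 d i) rfl rfl
      simp only [h4, Finset.sum_const, Finset.card_univ, Fintype.card_fin, nsmul_eq_mul]
      by_cases h5 : q x₀ = p ^ a ∧ f (κ x₀) = Multiplicative.ofAdd u
      · rw [if_pos h5, h5.1, Nat.card_eq_fintype_card]
        push_cast
        ring
      · rw [if_neg h5]
        simp
    simp only [h2] at h1
    rw [← Finset.mul_sum] at h1
    have h3 : ((Nat.card D * p ^ a : ℕ) : ℂ) ≠ 0 := by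
      have h4 : Nat.card D * p ^ a ≠ 0 := mul_ne_zero Nat.card_pos.ne' (pow_ne_zero _ hp.ne_zero)
      exact_mod_cast h4
    refine mul_left_cancel₀ h3 (h1.trans ?_)
    push_cast
    ring
  choose V hVI hV using hX
  choose n hn using fun u : ZMod (p ^ c) => ADP_nat u
  -- the transfer
  have hPh : Ph f k w σ = ∑ x₀ : R, w x₀ * ((Multiplicative.toAdd (f (κ x₀))).val : ℂ) := by
    unfold Ph
    rw [hfin, hsum]
    refine Finset.sum_congr rfl fun x₀ _ => ?_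
    have h1 : ∀ (d : D) (i : Fin (q x₀)), (if act d ((σ ^ (i : ℕ)) (x₀ : X)) ∈ {x : X | k x = 1} then
        w (act d ((σ ^ (i : ℕ)) (x₀ : X))) *
          ((Multiplicative.toAdd (f (k (σ (act d ((σ ^ (i : ℕ)) (x₀ : X))))))).val : ℂ) else 0) =
        if d = 1 then w x₀ * ((Multiplicative.toAdd (f (k (σ ((σ ^ (i : ℕ)) (x₀ : X)))))).val : ℂ) else 0 := by
      intro d i
      have h2 : act d ((σ ^ (i : ℕ)) (x₀ : X)) ∈ {x : X | k x = 1} ↔ d = 1 := by
        change k _ = 1 ↔ d = 1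
        rw [hk1 x₀ d i i.2]
      by_cases hd : d = 1
      · rw [if_pos hd, if_pos (h2.2 hd), hwe, hd, map_one]
        rfl
      · rw [if_neg hd, if_neg (fun h => hd (h2.1 h))]
    simp only [h1]
    rw [Finset.sum_comm]
    simp only [Finset.sum_ite_eq', Finset.mem_univ, if_true]
    rw [← Finset.mul_sum]
    congr 1
    rw [Finset.sum_eq_single ⟨q x₀ - 1, Nat.sub_lt (hq0 _) one_pos⟩]
    · change ((Multiplicative.toAdd (f (k (σ ((σ ^ (q x₀ - 1)) (x₀ : X)))))).val : ℂ) = _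
      have h3 : σ ((σ ^ (q x₀ - 1)) (x₀ : X)) = act (κ x₀) ((σ ^ 0) (x₀ : X)) := by
        have h4 : σ ((σ ^ (q x₀ - 1)) (x₀ : X)) = (σ ^ (q (x₀ : X) - 1 + 1)) (x₀ : X) := by
          rw [pow_succ']
          rfl
        rw [h4, Nat.sub_add_cancel (hq0 _), hκ]
        rfl
      rw [h3, hk1 x₀ _ 0 (hq0 _)]
    · rintro ⟨i, hi⟩ - hne
      change ((Multiplicative.toAdd (f (k (σ ((σ ^ i) (x₀ : X)))))).val : ℂ) = 0
      have h3 : i + 1 < q x₀ := by
        have h4 : i ≠ q x₀ - 1 := fun h => hne (Fin.ext h)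
        omega
      have h4 : σ ((σ ^ i) (x₀ : X)) = act 1 ((σ ^ (i + 1)) (x₀ : X)) := by
        rw [pow_succ', map_one]
        rfl
      rw [h4, hk1 x₀ 1 (i + 1) h3, map_one, toAdd_one, ZMod.val_zero, Nat.cast_zero]
    · intro h
      exact absurd (Finset.mem_univ _) h
  refine ⟨∑ a ∈ Finset.range (A + 1), ∑ u : ZMod (p ^ c), (n u : ℂ) * V a u, ?_, ?_⟩
  · exact IntAt.sum hS _ fun a _ => IntAt.sum hS _ fun u _ => (IntAt.natCast hS _).mul hS (hVI a u)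
  · have h1 : ∀ x₀ : R, w x₀ * ((Multiplicative.toAdd (f (κ x₀))).val : ℂ) =
        ∑ a ∈ Finset.range (A + 1), ∑ u : ZMod (p ^ c), (u.val : ℂ) *
          (if q x₀ = p ^ a ∧ f (κ x₀) = Multiplicative.ofAdd u then w x₀ else 0) := by
      intro x₀
      obtain ⟨a₀, ha₀, hqa⟩ := (Nat.dvd_prime_pow hp).1 (hdvd (x₀ : X) (p ^ A) 1 (by rw [hσ, map_one]))
      rw [Finset.sum_eq_single a₀, Finset.sum_eq_single (Multiplicative.toAdd (f (κ x₀)))]
      · rw [if_pos ⟨hqa, (ofAdd_toAdd _).symm⟩]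
        ring
      · intro u _ hu
        rw [if_neg, mul_zero]
        rintro ⟨-, h⟩
        apply hu
        rw [h, toAdd_ofAdd]
      · intro h
        exact absurd (Finset.mem_univ _) h
      · intro a _ ha
        refine Finset.sum_eq_zero fun u _ => ?_
        rw [if_neg, mul_zero]
        rintro ⟨h, -⟩
        apply ha
        rw [hqa] at h
        exact (Nat.pow_right_injective hp.two_le h).symm
      · intro h
        exact absurd (Finset.mem_range.2 (by omega)) h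
    rw [hPh, Finset.sum_congr rfl fun x₀ _ => h1 x₀, Finset.sum_comm, Finset.mul_sum]
    refine Finset.sum_congr rfl fun a _ => ?_
    rw [Finset.sum_comm, Finset.mul_sum]
    refine Finset.sum_congr rfl fun u _ => ?_
    rw [← Finset.mul_sum, hV]
    have h2 : (addOrderOf u : ℂ) * (u.val : ℂ) = ((p ^ c : ℕ) : ℂ) * (n u : ℂ) := by
      exact_mod_cast hn u
    calc (u.val : ℂ) * ((addOrderOf u : ℂ) * V a u) = (addOrderOf u : ℂ) * (u.val : ℂ) * V a u := by ring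
      _ = _ := by
        rw [h2]
        ring

end Pool.Agent.TZ
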