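import Pool.Agent.helper12.TZ.Spec

/-! Row tz:CLN (MP_baa4d7_al): the number of elements of a class. -/

set_option autoImplicit false

namespace Pool.Agent.TZ

open Pool.Agent.helper58.DC Pool.Agent.DI Pool.Agent.GR Pool.Agent.OB

theorem CLN_sup {G : Type} [Group G] (U Z : Subgroup G) (h : ∀ u ∈ U, ∀ w ∈ Z, u * w = w * u) :
    ∀ v ∈ U ⊔ Z, ∃ u ∈ U, ∃ w ∈ Z, v = u * w := by
  let K : Subgroup G :=
    { carrier := {v | ∃ u ∈ U, ∃ w ∈ Z, v = u * w}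
      one_mem' := ⟨1, U.one_mem, 1, Z.one_mem, (mul_one 1).symm⟩
      mul_mem' := by
        rintro a b ⟨u, hu, w, hw, rfl⟩ ⟨u', hu', w', hw', rfl⟩
        refine ⟨u * u', U.mul_mem hu hu', w * w', Z.mul_mem hw hw', ?_⟩
        calc u * w * (u' * w') = u * (w * u') * w' := by group
          _ = u * (u' * w) * w' := by rw [h u' hu' w hw]
          _ = u * u' * (w * w') := by group
      inv_mem' := by
        rintro a ⟨u, hu, w, hw, rfl⟩
        refine ⟨u⁻¹, U.inv_mem hu, w⁻¹, Z.inv_mem hw, ?_⟩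
        rw [mul_inv_rev]
        exact (h u⁻¹ (U.inv_mem hu) w⁻¹ (Z.inv_mem hw)).symm }
  have hK : U ⊔ Z ≤ K := by
    refine sup_le ?_ ?_
    · intro u hu
      exact ⟨u, hu, 1, Z.one_mem, (mul_one u).symm⟩
    · intro w hw
      exact ⟨1, U.one_mem, w, hw, (one_mul w).symm⟩
  intro v hv
  exact hK hv

theorem CLN_chainMul {G : Type} [Group G] (a b : G) (C : Finset (Subgroup G)) :
    chainMap (MulAut.conj (a * b)) C = chainMap (MulAut.conj a) (chainMap (MulAut.conj b) C) := by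
  classical
  unfold chainMap
  rw [Finset.image_image, map_mul]
  refine Finset.image_congr fun P _ => ?_
  change P.map _ = (P.map _).map _
  rw [Subgroup.map_map]
  rfl

theorem CLN_chainOne {G : Type} [Group G] (C : Finset (Subgroup G)) :
    chainMap (MulAut.conj (1 : G)) C = C := by
  classical
  unfold chainMap
  rw [map_one]
  have h : ∀ P : Subgroup G, P.map (1 : MulAut G).toMonoidHom = P := fun P => Subgroup.map_id P
  rw [Finset.image_congr (g := id) (fun P _ => h P), Finset.image_id]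

/-- the two directions of the description of the fibres -/
theorem CLN_fib (hTRI : TRI_stmt) (hSTB : STB_stmt) (hSN : Pool.Agent.helper58.DC.SN_stmt)
    {G : Type} [Group G] [Finite G] {p m : ℕ} [Fact p.Prime] {g : G} {D : Subgroup G} (hD : IsPGroup p D)
    {x : Tr G} (hx : x ∈ XX p g D) :
    UX m D x ≤ HX D x ∧ (∀ b ∈ BX m D x, ∀ c ∈ BX m D x, b * c = c * b) ∧
    (∀ d ∈ D, ∀ d' ∈ D, ∀ b ∈ BX m D x, ∀ b' ∈ BX m D x, cjT d (mR x b) = cjT d' (mR x b') →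
      d'⁻¹ * d ∈ UX m D x ∧
        b' = b * ((x.2.1 * b)⁻¹ * (d'⁻¹ * d) * (x.2.1 * b) * (d'⁻¹ * d)⁻¹)) ∧
    ∀ d ∈ D, ∀ b ∈ BX m D x, ∀ u ∈ UX m D x,
      b * ((x.2.1 * b)⁻¹ * u * (x.2.1 * b) * u⁻¹) ∈ BX m D x ∧
      cjT (d * u⁻¹) (mR x (b * ((x.2.1 * b)⁻¹ * u * (x.2.1 * b) * u⁻¹))) = cjT d (mR x b) := by
  obtain ⟨t, y, C⟩ := x
  obtain ⟨hC, ht, hy, hg, hFr⟩ := hx
  change PCh p ⊤ ⊥ C at hC
  change Fr y (HX D (t, y, C)) at hFr
  have hCm : Cm (t ^ m) (HX D (t, y, C)) := by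
    intro h hh
    have h1 : h ∈ Subgroup.centralizer {t} := hh.1.2
    rw [Subgroup.mem_centralizer_singleton_iff] at h1
    have h2 : Commute h t := h1
    exact (h2.pow_right m).eq
  have hHp : IsPGroup p (HX D (t, y, C)) := hD.to_le fun h hh => hh.1.1
  obtain ⟨-, hUH, hBab, -⟩ := hSTB G (t ^ m) y (HX D (t, y, C)) hCm hFr
  refine ⟨hUH, hBab, ?_, ?_⟩
  · intro d hd d' hd' b hb b' hb' he
    have e1 : d * t * d⁻¹ = d' * t * d'⁻¹ := congrArg Prod.fst he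
    have e2 : d * (y * b) * d⁻¹ = d' * (y * b') * d'⁻¹ := congrArg (fun z => z.2.1) he
    have e3 : chainMap (MulAut.conj d) C = chainMap (MulAut.conj d') C := congrArg (fun z => z.2.2) he
    have f1 : d'⁻¹ * d * t = t * (d'⁻¹ * d) := by
      calc d'⁻¹ * d * t = d'⁻¹ * (d * t * d⁻¹) * d := by group
        _ = d'⁻¹ * (d' * t * d'⁻¹) * d := by rw [e1]
        _ = _ := by group
    have f2 : y * b' = d'⁻¹ * d * (y * b) * (d'⁻¹ * d)⁻¹ := by
      calc y * b' = d'⁻¹ * (d' * (y * b') * d'⁻¹) * d' := by group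
        _ = d'⁻¹ * (d * (y * b) * d⁻¹) * d' := by rw [e2]
        _ = _ := by group
    have f3 : chainMap (MulAut.conj (d'⁻¹ * d)) C = C := by
      rw [CLN_chainMul, e3, ← CLN_chainMul, inv_mul_cancel, CLN_chainOne]
    have f4 : d'⁻¹ * d ∈ nrm C := (hSN G C hC.1 _).1 f3
    have f5 : d'⁻¹ * d ∈ HX D (t, y, C) := by
      refine ⟨⟨D.mul_mem (D.inv_mem hd') hd, ?_⟩, f4⟩
      change d'⁻¹ * d ∈ Subgroup.centralizer {t}
      rw [Subgroup.mem_centralizer_singleton_iff]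
      exact f1
    have f6 : b⁻¹ * b' = (y * b)⁻¹ * (d'⁻¹ * d) * (y * b) * (d'⁻¹ * d)⁻¹ := by
      calc b⁻¹ * b' = (y * b)⁻¹ * (y * b') := by group
        _ = (y * b)⁻¹ * (d'⁻¹ * d * (y * b) * (d'⁻¹ * d)⁻¹) := by rw [f2]
        _ = _ := by group
    obtain ⟨hFr', hUU⟩ := hTRI G p (t ^ m) y (HX D (t, y, C)) hHp hCm hFr b hb
    obtain ⟨-, -, -, hiff⟩ := hSTB G (t ^ m) (y * b) (HX D (t, y, C)) hCm hFr'
    have hBB : Bi (t ^ m) (y * b) (HX D (t, y, C)) = Bi (t ^ m) y (HX D (t, y, C)) := by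
      unfold Bi
      rw [hUU]
    have f7 : d'⁻¹ * d ∈ Ui (t ^ m) (y * b) (HX D (t, y, C)) := by
      refine (hiff _ f5).1 ?_
      rw [hBB, ← f6]
      exact Subgroup.mul_mem _ (Subgroup.inv_mem _ hb) hb'
    refine ⟨?_, ?_⟩
    · rw [hUU] at f7
      exact f7
    · change b' = b * ((y * b)⁻¹ * (d'⁻¹ * d) * (y * b) * (d'⁻¹ * d)⁻¹)
      rw [← f6, mul_inv_cancel_left]
  · intro d hd b hb u hu
    obtain ⟨hFr', hUU⟩ := hTRI G p (t ^ m) y (HX D (t, y, C)) hHp hCm hFr b hb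
    obtain ⟨-, -, -, hiff⟩ := hSTB G (t ^ m) (y * b) (HX D (t, y, C)) hCm hFr'
    have hBB : Bi (t ^ m) (y * b) (HX D (t, y, C)) = Bi (t ^ m) y (HX D (t, y, C)) := by
      unfold Bi
      rw [hUU]
    have huH : u ∈ HX D (t, y, C) := hUH hu
    have hu' : u ∈ Ui (t ^ m) (y * b) (HX D (t, y, C)) := by
      rw [hUU]
      exact hu
    have h1 := (hiff u huH).2 hu'
    rw [hBB] at h1
    have hut : u * t = t * u := by
      have h1 : u ∈ Subgroup.centralizer {t} := huH.1.2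
      rw [Subgroup.mem_centralizer_singleton_iff] at h1
      exact h1
    refine ⟨Subgroup.mul_mem _ hb h1, ?_⟩
    have g1 : d * u⁻¹ * t * (d * u⁻¹)⁻¹ = d * t * d⁻¹ := by
      calc d * u⁻¹ * t * (d * u⁻¹)⁻¹ = d * u⁻¹ * (t * u) * d⁻¹ := by group
        _ = d * u⁻¹ * (u * t) * d⁻¹ := by rw [hut]
        _ = _ := by group
    have g2 : d * u⁻¹ * (y * (b * ((y * b)⁻¹ * u * (y * b) * u⁻¹))) * (d * u⁻¹)⁻¹ =
        d * (y * b) * d⁻¹ := by group
    have g3 : chainMap (MulAut.conj (d * u⁻¹)) C = chainMap (MulAut.conj d) C := by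
      rw [CLN_chainMul, (hSN G C hC.1 u⁻¹).2 (Subgroup.inv_mem _ huH.2)]
    change (d * u⁻¹ * t * (d * u⁻¹)⁻¹,
      d * u⁻¹ * (y * (b * ((y * b)⁻¹ * u * (y * b) * u⁻¹))) * (d * u⁻¹)⁻¹,
      chainMap (MulAut.conj (d * u⁻¹)) C) = (d * t * d⁻¹, d * (y * b) * d⁻¹, chainMap (MulAut.conj d) C)
    rw [g1, g2, g3]

theorem CLN (hTRI : TRI_stmt) (hSTB : STB_stmt) (hSN : Pool.Agent.helper58.DC.SN_stmt) : CLN_stmt := by
  intro G _ _ p m _ g D hD hDg x hx hbot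
  obtain ⟨hUH, hBab, hA, hB⟩ := CLN_fib hTRI hSTB hSN (m := m) hD hx
  have hUB : UX m D x ≤ BX m D x := le_sup_left
  have hsB : Subgroup.zpowers (x.1 ^ m) ≤ BX m D x := le_sup_right
  -- the order of `B`
  have hcB : Nat.card (BX m D x) = Nat.card (UX m D x) * Nat.card (Subgroup.zpowers (x.1 ^ m)) := by
    rw [← Nat.card_prod]
    refine (Nat.card_congr (Equiv.ofBijective (fun z : UX m D x × Subgroup.zpowers (x.1 ^ m) =>
      (⟨(z.1 : G) * (z.2 : G), Subgroup.mul_mem _ (hUB z.1.2) (hsB z.2.2)⟩ : BX m D x)) ⟨?_, ?_⟩)).symm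
    · rintro ⟨⟨u, hu⟩, ⟨w, hw⟩⟩ ⟨⟨u', hu'⟩, ⟨w', hw'⟩⟩ he
      have h1 : u * w = u' * w' := congrArg Subtype.val he
      have h2 : u'⁻¹ * u = w' * w⁻¹ := by
        calc u'⁻¹ * u = u'⁻¹ * (u * w) * w⁻¹ := by group
          _ = u'⁻¹ * (u' * w') * w⁻¹ := by rw [h1]
          _ = _ := by group
      have h3 : u'⁻¹ * u ∈ UX m D x ⊓ Subgroup.zpowers (x.1 ^ m) := by
        refine Subgroup.mem_inf.2 ⟨Subgroup.mul_mem _ (Subgroup.inv_mem _ hu') hu, ?_⟩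
        rw [h2]
        exact Subgroup.mul_mem _ hw' (Subgroup.inv_mem _ hw)
      rw [hbot, Subgroup.mem_bot] at h3
      have h4 : u = u' := (inv_mul_eq_one.1 h3).symm
      subst h4
      have h5 : w = w' := mul_left_cancel h1
      subst h5
      rfl
    · rintro ⟨v, hv⟩
      obtain ⟨u, hu, w, hw, rfl⟩ := CLN_sup (UX m D x) (Subgroup.zpowers (x.1 ^ m))
        (fun u hu w hw => hBab u (hUB hu) w (hsB hw)) v hv
      exact ⟨(⟨u, hu⟩, ⟨w, hw⟩), rfl⟩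
  -- the parametrisation
  have hch : ∀ c : cls m D x, ∃ z : D × BX m D x, (c : Tr G) = cjT (z.1 : G) (mR x (z.2 : G)) := by
    rintro ⟨c, d, hd, b, hb, rfl⟩
    exact ⟨(⟨d, hd⟩, ⟨b, hb⟩), rfl⟩
  choose F hF using hch
  have hcard : Nat.card (cls m D x) * Nat.card (UX m D x) = Nat.card D * Nat.card (BX m D x) := by
    rw [← Nat.card_prod, ← Nat.card_prod]
    have hUD : ∀ u : UX m D x, (u : G) ∈ D := fun u => (hUH u.2).1.1
    refine Nat.card_congr (Equiv.ofBijective (fun z : cls m D x × UX m D x =>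
      ((⟨((F z.1).1 : G) * (z.2 : G)⁻¹, D.mul_mem (F z.1).1.2 (D.inv_mem (hUD z.2))⟩ : D),
        (⟨((F z.1).2 : G) * ((x.2.1 * ((F z.1).2 : G))⁻¹ * (z.2 : G) * (x.2.1 * ((F z.1).2 : G)) * (z.2 : G)⁻¹),
          (hB _ (F z.1).1.2 _ (F z.1).2.2 _ z.2.2).1⟩ : BX m D x))) ⟨?_, ?_⟩)
    · rintro ⟨c, u⟩ ⟨c', u'⟩ he
      have h1 : ((F c).1 : G) * (u : G)⁻¹ = ((F c').1 : G) * (u' : G)⁻¹ :=
        congrArg (fun z => ((Prod.fst z : D) : G)) he
      have h2 : ((F c).2 : G) * ((x.2.1 * ((F c).2 : G))⁻¹ * (u : G) * (x.2.1 * ((F c).2 : G)) * (u : G)⁻¹) =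
          ((F c').2 : G) * ((x.2.1 * ((F c').2 : G))⁻¹ * (u' : G) * (x.2.1 * ((F c').2 : G)) * (u' : G)⁻¹) :=
        congrArg (fun z => ((Prod.snd z : BX m D x) : G)) he
      have h3 := (hB _ (F c).1.2 _ (F c).2.2 _ u.2).2
      have h4 := (hB _ (F c').1.2 _ (F c').2.2 _ u'.2).2
      rw [h1, h2, h4, ← hF, ← hF] at h3
      have h5 : c = c' := (Subtype.ext h3).symm
      subst h5
      have h6 : (u : G) = (u' : G) := inv_injective (mul_left_cancel h1)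
      rw [Subtype.ext h6]
    · rintro ⟨⟨d, hd⟩, ⟨b, hb⟩⟩
      obtain ⟨c, hc⟩ : ∃ c : cls m D x, (c : Tr G) = cjT d (mR x b) := ⟨⟨_, d, hd, b, hb, rfl⟩, rfl⟩
      have h1 : cjT ((F c).1 : G) (mR x ((F c).2 : G)) = cjT d (mR x b) := by
        rw [← hF, hc]
      obtain ⟨h2, h3⟩ := hA _ (F c).1.2 d hd _ (F c).2.2 b hb h1
      refine ⟨(c, ⟨_, h2⟩), ?_⟩
      refine Prod.ext (Subtype.ext ?_) (Subtype.ext h3.symm)
      change ((F c).1 : G) * (d⁻¹ * ((F c).1 : G))⁻¹ = d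
      group
  rw [hcB] at hcard
  have hU0 : 0 < Nat.card (UX m D x) := Nat.card_pos
  rw [← Nat.card_zpowers]
  have h1 : Nat.card (cls m D x) * Nat.card (UX m D x) =
      Nat.card D * Nat.card (Subgroup.zpowers (x.1 ^ m)) * Nat.card (UX m D x) := by
    rw [hcard]
    ring
  exact Nat.eq_of_mul_eq_mul_right hU0 h1

end Pool.Agent.TZ
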