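import Pool.Agent.helper12.TZ.Spec

/-! Row tz:EXI (MP_baa4d7_al): a subgroup normalised by `y`. -/

set_option autoImplicit false

namespace Pool.Agent.TZ

open Pool.Agent.helper58.DC Pool.Agent.DI Pool.Agent.GR Pool.Agent.OB

theorem EXI_sup {G : Type} [Group G] (U Z : Subgroup G) (h : ∀ u ∈ U, ∀ w ∈ Z, u * w = w * u) :
    ∀ v ∈ U ⊔ Z, ∃ u ∈ U, ∃ w ∈ Z, v = u * w := by
  let K : Subgroup G :=
    { carrier := {v | ∃ u ∈ U, ∃ w ∈ Z, v = u * w}
      one_mem' := ⟨1, U.one_mem, 1, Z.one_mem, (mul_one 1).symm⟩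
      mul_mem' := by
        rintro a b ⟨u, hu, w, hw, rfl⟩ ⟨u', hu', w', hw', rfl⟩
        refine ⟨u * u', U.mul_mem hu hu', w * w', Z.mul_mem hw hw', ?_⟩
        calc u * w * (u' * w') = u * (w * u') * w' := by group
          _ = u * (u' * w) * w' := by rw [h u' hu' w hw]
          _ = u * u' * (w * w') := by group
      inv_mem' := by
        rintro a ⟨u, hu, w, hw, rfl⟩
        refine ⟨u⁻¹, U.inv_mem hu, w⁻¹, Z.inv_mem hw, ?_⟩
        rw [mul_inv_rev]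
        exact (h u⁻¹ (U.inv_mem hu) w⁻¹ (Z.inv_mem hw)).symm }
  have hK : U ⊔ Z ≤ K := by
    refine sup_le ?_ ?_
    · intro u hu
      exact ⟨u, hu, 1, Z.one_mem, (mul_one u).symm⟩
    · intro w hw
      exact ⟨1, U.one_mem, w, hw, (one_mul w).symm⟩
  intro v hv
  exact hK hv

theorem EXI_cyc {G : Type} [Group G] [Finite G] {p : ℕ} (hp : p.Prime) {s : G} {n : ℕ}
    (hn : orderOf s = p ^ n) {v w : G} (hv : v ∈ Subgroup.zpowers s) (hv1 : v ≠ 1)
    (hw : w ∈ Subgroup.zpowers s) (hwp : w ^ p = 1) : w ∈ Subgroup.zpowers v := by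
  rw [← mem_powers_iff_mem_zpowers] at hv hw
  obtain ⟨a, ha⟩ := hv
  obtain ⟨b, hb⟩ := hw
  change s ^ a = v at ha
  change s ^ b = w at hb
  subst ha hb
  have ha0 : a ≠ 0 := by
    rintro rfl
    exact hv1 (pow_zero s)
  obtain ⟨k, a', ha', rfl⟩ := Nat.exists_eq_pow_mul_and_not_dvd ha0 p hp.ne_one
  have hk : k < n := by
    by_contra hk
    push Not at hk
    apply hv1
    rw [← orderOf_dvd_iff_pow_eq_one, hn]
    exact Dvd.dvd.mul_right (pow_dvd_pow p hk) a'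
  have hb1 : p ^ n ∣ b * p := by
    rw [← hn, orderOf_dvd_iff_pow_eq_one, pow_mul]
    exact hwp
  have hb2 : p ^ (n - 1) ∣ b := by
    have h1 : p ^ n = p ^ (n - 1) * p := by
      rw [← pow_succ]
      congr 1
      omega
    rw [h1] at hb1
    exact Nat.dvd_of_mul_dvd_mul_right hp.pos hb1
  obtain ⟨b', rfl⟩ : p ^ k ∣ b := (pow_dvd_pow p (by omega)).trans hb2
  have hcop : Nat.Coprime a' (p ^ n) :=
    Nat.Coprime.pow_right n ((Nat.Prime.coprime_iff_not_dvd hp).2 ha').symm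
  have h1n : 1 < p ^ n := Nat.one_lt_pow (by omega) hp.one_lt
  obtain ⟨c, -, hc⟩ := Nat.exists_mul_mod_eq_one_of_coprime hcop h1n
  have h2 : s ^ (a' * c) = s := by
    rw [← pow_mod_orderOf, hn, hc, pow_one]
  have h3 : s ^ (p ^ k * b') = (s ^ (p ^ k * a')) ^ (c * b') := by
    calc s ^ (p ^ k * b') = (s ^ (a' * c)) ^ (p ^ k * b') := by rw [h2]
      _ = s ^ (a' * c * (p ^ k * b')) := (pow_mul s _ _).symm
      _ = s ^ (p ^ k * a' * (c * b')) := by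
        congr 1
        ring
      _ = _ := pow_mul s _ _
  rw [h3]
  exact Subgroup.pow_mem _ (Subgroup.mem_zpowers _) _

theorem EXI (hSTB : STB_stmt) (hUAB : UAB_stmt) : EXI_stmt := by
  intro G _ _ p hp s y H _ hCm hFr hs hne
  obtain ⟨⟨N, hN⟩, -, hBab, -⟩ := hSTB G s y H hCm hFr
  have hex : ∃ i, Ul s y H i ⊓ Subgroup.zpowers s ≠ ⊥ := ⟨N, by
    rw [hN N le_rfl]
    exact hne⟩
  classical
  obtain ⟨j, hj, hjmin⟩ : ∃ j, Ul s y H j ⊓ Subgroup.zpowers s ≠ ⊥ ∧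
      ∀ i < j, Ul s y H i ⊓ Subgroup.zpowers s = ⊥ :=
    ⟨Nat.find hex, Nat.find_spec hex, fun i hi => by
      have := Nat.find_min hex hi
      simpa using this⟩
  obtain ⟨i, rfl⟩ : ∃ i, j = i + 1 := by
    cases j with
    | zero =>
      exfalso
      apply hj
      change (⊥ : Subgroup G) ⊓ Subgroup.zpowers s = ⊥
      exact bot_inf_eq _
    | succ i => exact ⟨i, rfl⟩
  have hi := hjmin i (Nat.lt_succ_self i)
  have hle : Ul s y H (i + 1) ≤ Ui s y H := le_iSup (Ul s y H) (i + 1)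
  have hmono : Ul s y H i ≤ Ul s y H (i + 1) := (hUAB G s y H hCm hFr i).2
  obtain ⟨V, hV⟩ : ∃ V, V = Ul s y H i ⊔ Subgroup.zpowers s := ⟨_, rfl⟩
  have hVB : V ≤ Bi s y H := by
    rw [hV]
    exact sup_le_sup_right (le_iSup (Ul s y H) i) _
  have hVab : ∀ b ∈ V, ∀ c ∈ V, b * c = c * b := fun b hb c hc => hBab b (hVB hb) c (hVB hc)
  have hUV : Ul s y H i ≤ V := by
    rw [hV]
    exact le_sup_left
  have hsV : Subgroup.zpowers s ≤ V := by
    rw [hV]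
    exact le_sup_right
  obtain ⟨k, hk⟩ := hs
  obtain ⟨n, -, hn⟩ := (Nat.dvd_prime_pow hp.out).1 (orderOf_dvd_of_pow_eq_one hk)
  obtain ⟨v₀, hv₀, hv₀1⟩ : ∃ v₀ : G, v₀ ∈ Ul s y H (i + 1) ⊓ Subgroup.zpowers s ∧ v₀ ≠ 1 := by
    obtain ⟨a, ha⟩ := Subgroup.ne_bot_iff_exists_ne_one.1 hj
    exact ⟨(a : G), a.2, fun h => ha (Subtype.ext h)⟩
  obtain ⟨hv₀U, hv₀s⟩ := Subgroup.mem_inf.1 hv₀
  let E : Subgroup G :=
    { carrier := {v | v ∈ V ∧ v ^ p = 1}
      one_mem' := ⟨V.one_mem, one_pow p⟩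
      mul_mem' := by
        rintro a b ⟨ha, ha1⟩ ⟨hb, hb1⟩
        refine ⟨V.mul_mem ha hb, ?_⟩
        have h1 : Commute a b := hVab a ha b hb
        rw [h1.mul_pow, ha1, hb1, mul_one]
      inv_mem' := by
        rintro a ⟨ha, ha1⟩
        refine ⟨V.inv_mem ha, ?_⟩
        rw [inv_pow, ha1, inv_one] }
  have hEU : ∀ e ∈ E, e ∈ Ul s y H (i + 1) := by
    rintro e ⟨he, hep⟩
    rw [hV] at he
    obtain ⟨u, hu, w, hw, rfl⟩ := EXI_sup _ _ (fun u hu w hw => hVab u (hUV hu) w (hsV hw)) e he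
    have h1 : Commute u w := hVab u (hUV hu) w (hsV hw)
    rw [h1.mul_pow] at hep
    have h2 : u ^ p ∈ Ul s y H i ⊓ Subgroup.zpowers s := by
      refine Subgroup.mem_inf.2 ⟨Subgroup.pow_mem _ hu p, ?_⟩
      rw [eq_inv_of_mul_eq_one_left hep]
      exact Subgroup.inv_mem _ (Subgroup.pow_mem _ hw p)
    rw [hi, Subgroup.mem_bot] at h2
    have h3 : w ^ p = 1 := by
      rw [h2, one_mul] at hep
      exact hep
    have h4 : w ∈ Subgroup.zpowers v₀ := EXI_cyc hp.out hn hv₀s hv₀1 hw h3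
    have h5 : Subgroup.zpowers v₀ ≤ Ul s y H (i + 1) := by
      rw [Subgroup.zpowers_le]
      exact hv₀U
    exact Subgroup.mul_mem _ (hmono hu) (h5 h4)
  refine ⟨E, fun e he => hle (hEU e he), ?_, ?_⟩
  · -- `E ≠ ⊥`
    have h1 : orderOf v₀ ∣ p ^ n := by
      rw [← hn]
      exact orderOf_dvd_of_mem_zpowers hv₀s
    obtain ⟨r, -, hr⟩ := (Nat.dvd_prime_pow hp.out).1 h1
    have hr0 : r ≠ 0 := by
      rintro rfl
      rw [pow_zero, orderOf_eq_one_iff] at hr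
      exact hv₀1 hr
    intro hE
    have h2 : v₀ ^ p ^ (r - 1) ∈ E := by
      refine ⟨V.pow_mem (hsV hv₀s) _, ?_⟩
      rw [← pow_mul, ← pow_succ, Nat.sub_add_cancel (Nat.pos_of_ne_zero hr0), ← hr, pow_orderOf_eq_one]
    rw [hE, Subgroup.mem_bot, ← orderOf_dvd_iff_pow_eq_one, hr] at h2
    have h3 := (Nat.pow_dvd_pow_iff_le_right hp.out.one_lt).1 h2
    omega
  · intro e he
    have h1 := hEU e he
    obtain ⟨-, -, -, h2⟩ := (h1 : e ∈ nx s y H (Ul s y H i))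
    rw [← hV] at h2
    refine ⟨?_, ?_⟩
    · have h3 : y⁻¹ * e * y = y⁻¹ * e * y * e⁻¹ * e := by group
      rw [h3]
      exact V.mul_mem h2 he.1
    · have h3 : (y⁻¹ * e * y) ^ p = y⁻¹ * e ^ p * y := by
        have h4 := conj_pow (i := p) (a := y⁻¹) (b := e)
        rwa [inv_inv] at h4
      rw [h3, he.2, mul_one, inv_mul_cancel]

end Pool.Agent.TZ
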