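import Pool.Agent.helper12.TZ.SpecI

/-! Row tz:ICM (MP_baa4d7_al): combinatorics of the pairs of generators. -/

set_option autoImplicit false

namespace Pool.Agent.TZ

open Pool.Agent.helper58.DC Pool.Agent.DI Pool.Agent.GR Pool.Agent.OB

theorem ICM : ICM_stmt := by
  intro p hp A _ _ S h1 h2 h3
  classical
  have : Fintype A := Fintype.ofFinite A
  have : Fintype (Subgroup A) := Fintype.ofFinite _
  obtain ⟨F, hFd⟩ : ∃ F : Subgroup A → ℤ, ∀ V, F V = ∑ U : Subgroup A, if V ≤ U then S U else 0 :=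
    ⟨_, fun _ => rfl⟩
  have hF : ∀ V : Subgroup A, V ≠ ⊤ → (p : ℤ) ∣ F V := by
    intro V hV
    have h4 := h2 V hV
    rw [finsum_eq_sum_of_fintype] at h4
    rw [hFd, ← Finset.sum_filter, Finset.sum_subtype (p := fun U => V ≤ U) _ (fun U => by simp)]
    exact h4
  have hFt : F ⊤ = S ⊤ := by
    rw [hFd, Finset.sum_eq_single ⊤]
    · rw [if_pos le_rfl]
    · intro U _ hU
      rw [if_neg]
      intro h
      exact hU (top_le_iff.1 h)
    · intro h
      exact absurd (Finset.mem_univ _) h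
  have hcl : ∀ (U : Subgroup A) (x : A × A), Subgroup.closure {x.1, x.2} ≤ U ↔ x.1 ∈ U ∧ x.2 ∈ U := by
    intro U x
    rw [Subgroup.closure_le]
    constructor
    · intro h
      exact ⟨h (Set.mem_insert _ _), h (Set.mem_insert_of_mem _ rfl)⟩
    · rintro ⟨ha, hb⟩ y hy
      rcases hy with rfl | hy
      · exact ha
      · rw [Set.mem_singleton_iff.1 hy]
        exact hb
  have hsum : ∑ U : Subgroup A, (Nat.card U : ℤ) ^ 2 * S U = ∑ x : A × A, F (Subgroup.closure {x.1, x.2}) := by
    simp only [hFd]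
    rw [Finset.sum_comm]
    refine Finset.sum_congr rfl fun U _ => ?_
    have h5 : ∀ x : A × A, (if Subgroup.closure {x.1, x.2} ≤ U then S U else 0) =
        if x.1 ∈ U ∧ x.2 ∈ U then S U else 0 := fun x => if_congr (hcl U x) rfl rfl
    simp only [h5]
    rw [← Finset.sum_filter, Finset.sum_const, nsmul_eq_mul]
    congr 1
    have h6 : (Finset.univ.filter fun x : A × A => x.1 ∈ U ∧ x.2 ∈ U) =
        (Finset.univ.filter fun x : A => x ∈ U) ×ˢ (Finset.univ.filter fun x : A => x ∈ U) := by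
      ext x
      simp
    rw [h6, Finset.card_product, Nat.card_eq_fintype_card, Fintype.card_subtype]
    push_cast
    ring
  rw [finsum_eq_sum_of_fintype, hsum] at h1
  rw [← Finset.sum_filter_add_sum_filter_not Finset.univ
    (fun x : A × A => Subgroup.closure {x.1, x.2} = (⊤ : Subgroup A))] at h1
  have h4 : (p : ℤ) ∣ ∑ x : A × A with ¬ Subgroup.closure {x.1, x.2} = (⊤ : Subgroup A),
      F (Subgroup.closure {x.1, x.2}) :=
    Finset.dvd_sum fun x hx => hF _ (Finset.mem_filter.1 hx).2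
  have h5 := (Int.dvd_add_left h4).1 h1
  have h6 : ∑ x : A × A with Subgroup.closure {x.1, x.2} = (⊤ : Subgroup A),
      F (Subgroup.closure {x.1, x.2}) =
      (Nat.card {x : A × A // Subgroup.closure {x.1, x.2} = (⊤ : Subgroup A)} : ℤ) * S ⊤ := by
    rw [Finset.sum_congr rfl (g := fun _ => S ⊤) (fun x hx => by rw [(Finset.mem_filter.1 hx).2, hFt]),
      Finset.sum_const, nsmul_eq_mul, Nat.card_eq_fintype_card, Fintype.card_subtype]
  rw [h6] at h5
  rcases (Nat.prime_iff_prime_int.1 hp.out).dvd_mul.1 h5 with h7 | h7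
  · exact absurd (Int.natCast_dvd_natCast.1 h7) h3
  · exact h7

end Pool.Agent.TZ
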