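import Pool.Agent.helper12.TZ.SpecI

/-! Row tz:ICY (MP_baa4d7_al): `A` cyclic of order prime to `p`. -/

set_option autoImplicit false

namespace Pool.Agent.TZ

open Pool.Agent.helper58.DC Pool.Agent.DI Pool.Agent.GR Pool.Agent.OB

theorem ICY (hIRL : IRL_stmt) (hIJN : IJN_stmt) (hICM : ICM_stmt) (hRE : RE_stmt) (hST : ST_stmt)
    (hFN : FN_stmt) : ICY_stmt := by
  intro p M hS G E A _ _ _ _ _ X hcyc hl hO χ hχ D x hD z hz hzc hzd
  have hp : Fact p.Prime := ⟨hS.pr⟩
  suffices h : ∀ n : ℕ, ∀ (E A : Type) [Group E] [Group A] [Finite E] (X : Extension G E A), Nat.card A = n →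
      IsCyclic A → (∀ l : ℕ, l.Prime → l ∣ Nat.card A → ¬ p ∣ l ∧ ¬ p ∣ l ^ 2 - 1) →
      (p : ℤ) ∣ ∑ᶠ d : ℤ, altSum X p M χ d ⊤ from h _ E A X rfl hcyc hl
  intro n
  induction n using Nat.strong_induction_on with
  | _ n ih =>
    intro E A _ _ _ X hn hcyc hl
    have hfA : Finite A := Finite.of_surjective X.proj X.proj_surjective
    by_cases hst : Stable X M χ
    · refine hICM p A (fun U => ∑ᶠ d : ℤ, altSum X p M χ d U) ?_ ?_ ?_
      · refine hIRL p M hS G E A X hcyc ?_ hO χ hχ hst D x hD z hz hzc hzd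
        intro hpA
        exact (hl p hS.pr hpA).1 dvd_rfl
      · intro U hU
        classical
        have : Fintype {V : Subgroup A // U ≤ V} := Fintype.ofFinite _
        have h1 : ∑ᶠ V : {V : Subgroup A // U ≤ V}, ∑ᶠ d : ℤ, altSum X p M χ d V.1 =
            ∑ᶠ d : ℤ, altSum (resE X U) p M χ d ⊤ := by
          rw [finsum_eq_sum_of_fintype, ← finsum_sum_comm]
          · refine finsum_congr fun d => ?_
            rw [hRE G E A X p M χ hχ d U, finsum_eq_sum_of_fintype]
          · intro V _
            exact hFN G E A X p M χ V.1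
        rw [h1]
        have h2 : Nat.card U < n := by
          rw [← hn]
          refine lt_of_le_of_ne (Nat.le_of_dvd Nat.card_pos (Subgroup.card_subgroup_dvd_card U)) ?_
          intro h3
          exact hU (Subgroup.eq_top_of_card_eq U h3)
        exact ih (Nat.card U) h2 (U.comap X.proj) U (resE X U) rfl inferInstance
          fun l hl1 hl2 => hl l hl1 (hl2.trans (Subgroup.card_subgroup_dvd_card U))
      · exact hIJN p A hcyc hl
    · have h1 : ∀ d : ℤ, altSum X p M χ d ⊤ = 0 := by
        intro d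
        by_contra h2
        exact hst (hST G E A X p M χ hχ d h2)
      simp only [h1]
      rw [finsum_zero]
      exact dvd_zero _

end Pool.Agent.TZ
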